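import Pool.Agent.N728.QU.DefG
import Pool.Agent.N123.QU.SER

/-!
PROJECT QV (helper728), leaf SER: the singular series of `τ (f(m) - f(h)) + c`, `f = a X² + b X`.
Written by helper814, after `N123/QU/SER.lean` (helper123).
-/

set_option autoImplicit false

namespace Pool.Agent.N814.QV

open Finset Pool.Agent.N728.QL Pool.Agent.N728.QU
open Pool.Agent.N170.QG (crt2 avg periods incomplete tel tel_prime low ratio)
open Pool.Agent.N92.QL (loc_crt loc_periodic)
open Pool.Agent.N123.QU (sum_range_zmod tau_ne wt wt_nonneg secondG sum_div)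

/-! ### LOCg -/

open Classical in
/-- **LOCg** -/
theorem t_LOCg (a b : ℤ) : S_LOCg a b := by
  intro z
  have hV : 0 < VW 0 z := by
    unfold VW
    refine prod_pos fun p hp => ?_
    have hp' : (2 : ℝ) ≤ p := by exact_mod_cast (mem_filter.1 hp).2.two_le
    have : 1 / (p : ℝ) ≤ 1 / 2 := one_div_le_one_div_of_le (by norm_num) hp'
    linarith
  have hQ : 0 < PP 0 z := by
    unfold PP
    exact prod_pos fun p hp => (mem_filter.1 hp).2.pos
  have hQ' : (0 : ℝ) < PP 0 z := by exact_mod_cast hQ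
  refine ⟨(VW 0 z)⁻¹ * PP 0 z, by positivity, fun τ c h T1 T2 hT => ?_⟩
  obtain ⟨S, hS⟩ : ∃ S, S = (Ioc 0 z).filter Nat.Prime := ⟨_, rfl⟩
  have hSp : ∀ p ∈ S, p.Prime := fun p hp => by
    rw [hS] at hp
    exact (mem_filter.1 hp).2
  obtain ⟨P, hP⟩ : ∃ P : ℕ → ℕ → Prop, P = fun p t : ℕ => ¬ (p : ℤ) ∣ Vg a b τ c h t := ⟨_, rfl⟩
  have hdv : ∀ p t : ℕ, (p : ℤ) ∣ Vg a b τ c h (t % p) ↔ (p : ℤ) ∣ Vg a b τ c h t := by
    intro p t
    have h1 : ((t % p : ℕ) : ℤ) ≡ t [ZMOD p] := by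
      push_cast
      exact Int.mod_modEq _ _
    have h2 : Vg a b τ c h (t % p) ≡ Vg a b τ c h t [ZMOD p] := by
      unfold Vg
      exact (Int.ModEq.mul_left τ ((((h1.pow 2).mul_left a).add (h1.mul_left b)).sub_right _)).add_right c
    rw [← Int.modEq_zero_iff_dvd, ← Int.modEq_zero_iff_dvd]
    exact ⟨fun h => h2.symm.trans h, fun h => h2.trans h⟩
  have hR : ∀ t : ℕ, Rg 0 z (Vg a b τ c h t) ↔ ∀ p ∈ S, P p (t % p) := by
    intro t
    rw [hP, hS]
    unfold Rg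
    simp only [mem_filter, mem_Ioc]
    constructor
    · rintro h p ⟨⟨h1, h2⟩, h3⟩
      rw [hdv]
      exact h p h3 h1 h2
    · intro h p h3 h1 h2
      have := h p ⟨⟨h1, h2⟩, h3⟩
      rwa [hdv] at this
  obtain ⟨g, hg⟩ : ∃ g : ℕ → ℝ, g = fun t : ℕ => lz z (Vg a b τ c h t) := ⟨_, rfl⟩
  have hgv : ∀ t, g t = if ∀ p ∈ S, P p (t % p) then (VW 0 z)⁻¹ else 0 := by
    intro t
    rw [hg]
    show lz z _ = _
    unfold lz
    by_cases h : Rg 0 z (Vg a b τ c h t)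
    · rw [if_pos h, if_pos ((hR t).1 h)]
    · rw [if_neg h, if_neg (fun h' => h ((hR t).2 h'))]
  have hPP : PP 0 z = ∏ p ∈ S, p := by rw [hS]; rfl
  have hper : ∀ n, g (n + PP 0 z) = g n := by
    intro n
    rw [hgv, hgv]
    have : ∀ p ∈ S, (n + PP 0 z) % p = n % p := by
      intro p hp
      have hd : p ∣ PP 0 z := by
        rw [hPP]
        exact dvd_prod_of_mem (fun p => p) hp
      obtain ⟨k, hk⟩ := hd
      rw [hk, Nat.add_mul_mod_self_left]
    congr 1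
    rw [eq_iff_iff]
    refine forall₂_congr fun p hp => ?_
    rw [this p hp]
  have hg0 : ∀ n, 0 ≤ g n := by
    intro n
    rw [hgv]
    split_ifs <;> positivity
  have hg1 : ∀ n, g n ≤ (VW 0 z)⁻¹ := by
    intro n
    rw [hgv]
    split_ifs
    · exact le_rfl
    · positivity
  have hsum : (∑ i ∈ range (PP 0 z), g i) / PP 0 z = Sqg a b τ c h z := by
    have h1 : ∑ i ∈ range (PP 0 z), g i =
        ((∏ p ∈ S, ((range p).filter (P p)).card : ℕ) : ℝ) * (VW 0 z)⁻¹ := by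
      rw [← loc_crt S P hSp, ← hPP]
      simp_rw [hgv]
      rw [← sum_filter, sum_const, nsmul_eq_mul]
    rw [h1, hPP]
    unfold Sqg VW
    rw [← hS, prod_div_distrib]
    push_cast
    rw [div_eq_mul_inv, div_eq_mul_inv, mul_right_comm]
    congr 1
    rw [← div_eq_mul_inv, ← prod_div_distrib]
    refine prod_congr rfl fun p hp => ?_
    have hp0 : (0 : ℝ) < p := by exact_mod_cast (hSp p hp).pos
    have h2 : ((range p).filter (P p)).card +
        ((range p).filter (fun m : ℕ => (p : ℤ) ∣ Vg a b τ c h m)).card = p := by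
      have h3 := card_filter_add_card_filter_not (s := range p)
        (fun t : ℕ => (p : ℤ) ∣ Vg a b τ c h t)
      rw [card_range] at h3
      rw [add_comm, hP]
      convert h3 using 2
      congr!
    have h3 : (((range p).filter (P p)).card : ℝ) =
        p - ((range p).filter (fun m : ℕ => (p : ℤ) ∣ Vg a b τ c h m)).card := by
      have : ((((range p).filter (P p)).card : ℝ) +
          ((range p).filter (fun m : ℕ => (p : ℤ) ∣ Vg a b τ c h m)).card) = p := by exact_mod_cast h2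
      linarith
    rw [h3]
    field_simp
  have hL := loc_periodic hQ hper hg0 hg1 (T2 - T1) (T1 + 1)
  rw [hsum] at hL
  have h4 : ∑ t ∈ Ioc T1 T2, lz z (Vg a b τ c h t) = ∑ i ∈ range (T2 - T1), g (T1 + 1 + i) := by
    have h6 : Ioc T1 T2 = Ico (T1 + 1) (T2 + 1) := by
      ext x
      simp only [mem_Ioc, mem_Ico]
      omega
    rw [h6, Finset.sum_Ico_eq_sum_range, show T2 + 1 - (T1 + 1) = T2 - T1 by omega, hg]
  rw [h4]
  have h5 : ((T2 : ℝ) - T1) = ((T2 - T1 : ℕ) : ℝ) := by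
    rw [Nat.cast_sub hT]
  rw [h5]
  exact hL

/-! ### The number of roots -/

variable (q r : ℤ)

/-- the number of roots modulo `p` -/
def wg (τ c : ℤ) (h p : ℕ) : ℕ := ((range p).filter (fun m : ℕ => (p : ℤ) ∣ Vg q r τ c h m)).card

lemma wg_zmod (τ c : ℤ) (h p : ℕ) [NeZero p] : wg q r τ c h p =
    (univ.filter (fun x : ZMod p => (τ : ZMod p) * (((q : ZMod p) * x ^ 2 + (r : ZMod p) * x) -
      ((q : ZMod p) * (h : ZMod p) ^ 2 + (r : ZMod p) * (h : ZMod p))) + (c : ZMod p) = 0)).card := by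
  unfold wg
  refine Finset.card_bij' (fun m _ => (m : ZMod p)) (fun x _ => x.val) ?_ ?_ ?_ ?_
  · intro m hm
    rw [mem_filter] at hm
    rw [mem_filter]
    refine ⟨mem_univ _, ?_⟩
    have := (ZMod.intCast_zmod_eq_zero_iff_dvd (Vg q r τ c h m) p).2 hm.2
    unfold Vg at this
    push_cast at this
    exact this
  · intro x hx
    rw [mem_filter] at hx
    rw [mem_filter, mem_range]
    refine ⟨ZMod.val_lt x, ?_⟩
    rw [← ZMod.intCast_zmod_eq_zero_iff_dvd]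
    unfold Vg
    push_cast
    rw [ZMod.natCast_zmod_val]
    exact hx.2
  · intro m hm
    rw [mem_filter, mem_range] at hm
    exact ZMod.val_cast_of_lt hm.1
  · intro x _
    exact ZMod.natCast_zmod_val x

lemma wg_mod (τ c : ℤ) (h p : ℕ) [NeZero p] : wg q r τ c (h % p) p = wg q r τ c h p := by
  rw [wg_zmod, wg_zmod, ZMod.natCast_mod]

lemma wg_le_p (τ c : ℤ) (h p : ℕ) : wg q r τ c h p ≤ p := by
  unfold wg
  refine (Finset.card_filter_le _ _).trans ?_
  rw [card_range]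

lemma count_pairs {p : ℕ} [hp : Fact p.Prime] (q r τ c : ZMod p) (hq : 2 * q ≠ 0) (hτ : τ ≠ 0) :
    ∑ y : ZMod p, (univ.filter (fun x : ZMod p =>
      τ * ((q * x ^ 2 + r * x) - (q * y ^ 2 + r * y)) + c = 0)).card =
      p - 1 + if c = 0 then p else 0 := by
  simp only [Finset.card_filter]
  have h1 : ∀ y : ZMod p,
      (∑ x : ZMod p, if τ * ((q * x ^ 2 + r * x) - (q * y ^ 2 + r * y)) + c = 0 then 1 else 0) =
      ∑ a : ZMod p, if τ * (2 * q * a * y + q * a ^ 2 + r * a) + c = 0 then 1 else 0 := by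
    intro y
    rw [← Equiv.sum_comp (Equiv.addLeft y)]
    refine Finset.sum_congr rfl fun a _ => ?_
    have : τ * ((q * (Equiv.addLeft y a) ^ 2 + r * (Equiv.addLeft y a)) - (q * y ^ 2 + r * y)) + c =
        τ * (2 * q * a * y + q * a ^ 2 + r * a) + c := by
      rw [Equiv.coe_addLeft]
      ring
    rw [this]
  rw [Finset.sum_congr rfl fun y _ => h1 y, Finset.sum_comm,
    ← Finset.add_sum_erase univ _ (mem_univ (0 : ZMod p)), add_comm]
  congr 1
  · rw [Finset.sum_congr rfl (g := fun _ => 1)]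
    · rw [Finset.sum_const, Finset.card_erase_of_mem (mem_univ _), Finset.card_univ, ZMod.card,
        smul_eq_mul, mul_one]
    · intro a ha
      have ha0 : a ≠ 0 := (Finset.mem_erase.1 ha).1
      have hqa : 2 * q * a ≠ 0 := mul_ne_zero hq ha0
      rw [Finset.sum_eq_single ((-c / τ - q * a ^ 2 - r * a) / (2 * q * a))]
      · rw [if_pos]
        have e : 2 * q * a * ((-c / τ - q * a ^ 2 - r * a) / (2 * q * a)) =
            -c / τ - q * a ^ 2 - r * a := mul_div_cancel₀ _ hqa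
        rw [e]
        field_simp
        ring
      · intro y _ hy
        rw [if_neg]
        intro h
        apply hy
        rw [eq_div_iff hqa]
        have e : -c / τ = 2 * q * a * y + q * a ^ 2 + r * a := by
          rw [div_eq_iff hτ]
          linear_combination -h
        rw [e]
        ring
      · intro h
        exact absurd (mem_univ _) h
  · have h3 : ∀ y : ZMod p, τ * (2 * q * 0 * y + q * 0 ^ 2 + r * 0) + c = c := fun y => by ring
    simp only [h3]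
    split_ifs
    · rw [Finset.sum_const, Finset.card_univ, ZMod.card, smul_eq_mul, mul_one]
    · rw [Finset.sum_const_zero]

lemma two_q_ne {q : ℤ} {p : ℕ} (hq : ¬ (p : ℤ) ∣ 2 * q) : (2 * (q : ZMod p)) ≠ 0 := by
  intro h
  apply hq
  rw [← ZMod.intCast_zmod_eq_zero_iff_dvd]
  push_cast
  exact h

lemma sum_wg {τ : ℤ} (hτ : τ = 1 ∨ τ = -1) (c : ℤ) {p : ℕ} (hp : p.Prime)
    (hq : ¬ (p : ℤ) ∣ 2 * q) :
    ∑ h ∈ range p, wg q r τ c h p = p - 1 + if (p : ℤ) ∣ c then p else 0 := by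
  have := Fact.mk hp
  have h1 : ∑ h ∈ range p, wg q r τ c h p = ∑ h ∈ range p, (fun y : ZMod p =>
      (univ.filter (fun x : ZMod p => (τ : ZMod p) * (((q : ZMod p) * x ^ 2 + (r : ZMod p) * x) -
        ((q : ZMod p) * y ^ 2 + (r : ZMod p) * y)) + (c : ZMod p) = 0)).card)
        (h : ZMod p) := Finset.sum_congr rfl fun h _ => wg_zmod q r τ c h p
  rw [h1]
  refine (sum_range_zmod p (fun y : ZMod p =>
      (univ.filter (fun x : ZMod p => (τ : ZMod p) * (((q : ZMod p) * x ^ 2 + (r : ZMod p) * x) -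
        ((q : ZMod p) * y ^ 2 + (r : ZMod p) * y)) + (c : ZMod p) = 0)).card)).trans ?_
  rw [count_pairs _ _ _ _ (two_q_ne hq) (tau_ne hτ)]
  simp only [ZMod.intCast_zmod_eq_zero_iff_dvd]

lemma wg_le {τ : ℤ} (hτ : τ = 1 ∨ τ = -1) (c : ℤ) (h : ℕ) {p : ℕ} (hp : p.Prime)
    (hq : ¬ (p : ℤ) ∣ 2 * q) : wg q r τ c h p ≤ 2 := by
  have := Fact.mk hp
  have hq0 : (q : ZMod p) ≠ 0 := right_ne_zero_of_mul (two_q_ne hq)
  rw [wg_zmod]
  rcases (univ.filter (fun x : ZMod p => (τ : ZMod p) * (((q : ZMod p) * x ^ 2 + (r : ZMod p) * x) -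
      ((q : ZMod p) * (h : ZMod p) ^ 2 + (r : ZMod p) * (h : ZMod p))) +
      (c : ZMod p) = 0)).eq_empty_or_nonempty with h0 | ⟨x0, hx0⟩
  · rw [h0]
    simp
  · have hsub : univ.filter (fun x : ZMod p =>
        (τ : ZMod p) * (((q : ZMod p) * x ^ 2 + (r : ZMod p) * x) -
        ((q : ZMod p) * (h : ZMod p) ^ 2 + (r : ZMod p) * (h : ZMod p))) + (c : ZMod p) = 0) ⊆
        {x0, -(r : ZMod p) / q - x0} := by
      intro x hx
      rw [mem_filter] at hx hx0
      rw [mem_insert, mem_singleton]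
      have h1 : (τ : ZMod p) * ((x - x0) * (q * (x + x0) + r)) = 0 := by
        linear_combination hx.2 - hx0.2
      rcases mul_eq_zero.1 h1 with h3 | h3
      · exact absurd h3 (tau_ne hτ)
      · rcases mul_eq_zero.1 h3 with h4 | h4
        · left
          exact sub_eq_zero.1 h4
        · right
          rw [eq_sub_iff_add_eq, eq_div_iff hq0]
          linear_combination h4
    exact (Finset.card_le_card hsub).trans Finset.card_le_two

/-- at the primes that divide `2 q` there is at most one root if there is no local obstruction -/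
lemma wg_bad {τ : ℤ} (hτ : τ = 1 ∨ τ = -1) {c : ℤ} (hc : Adg q r c) (h : ℕ) {p : ℕ} (hp : p.Prime)
    (hq : (p : ℤ) ∣ 2 * q) : wg q r τ c h p ≤ 1 := by
  have hτ1 : τ * τ = 1 := by rcases hτ with rfl | rfl <;> norm_num
  have hpZ : Prime (p : ℤ) := Nat.prime_iff_prime_int.1 hp
  unfold wg
  rw [Finset.card_le_one]
  intro m hm m' hm'
  rw [mem_filter, mem_range] at hm hm'
  have key : (p : ℤ) ∣ ((m : ℤ) - m') * (q * ((m : ℤ) + m') + r) := by
    have h1 := dvd_sub hm.2 hm'.2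
    have h2 : (p : ℤ) ∣ τ * (Vg q r τ c h m - Vg q r τ c h m') := h1.mul_left _
    have h3 : τ * (Vg q r τ c h m - Vg q r τ c h m') =
        ((m : ℤ) - m') * (q * ((m : ℤ) + m') + r) := by
      unfold Vg
      linear_combination ((m : ℤ) - m') * (q * ((m : ℤ) + m') + r) * hτ1
    rwa [h3] at h2
  have heq : (p : ℤ) ∣ (m : ℤ) - m' → m = m' := by
    intro h1
    have h2 : |(m : ℤ) - m'| < p := by
      rw [abs_lt]
      constructor <;> omega
    have h3 := Int.eq_zero_of_abs_lt_dvd h1 h2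
    omega
  by_cases hp2 : p = 2
  · subst hp2
    by_contra hne
    have h1 : ((2 : ℕ) : ℤ) ∣ q * ((m : ℤ) + m') + r := by
      rcases hpZ.dvd_or_dvd key with h2 | h2
      · exact absurd (heq h2) hne
      · exact h2
    have h3 : (m : ℤ) + m' = 1 := by omega
    rw [h3, mul_one] at h1
    push_cast at h1
    apply hc.2 h1
    have h4 : Vg q r τ c h m = c + τ * (q * ((m : ℤ) * (m - 1)) - q * ((h : ℤ) * (h - 1)) +
        (q + r) * ((m : ℤ) - h)) := by
      unfold Vg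
      ring
    have h5 : ∀ x : ℤ, (2 : ℤ) ∣ x * (x - 1) := fun x => (Int.even_mul_pred_self x).two_dvd
    have h6 : (2 : ℤ) ∣ τ * (q * ((m : ℤ) * (m - 1)) - q * ((h : ℤ) * (h - 1)) +
        (q + r) * ((m : ℤ) - h)) :=
      Dvd.dvd.mul_left (dvd_add (dvd_sub ((h5 _).mul_left _) ((h5 _).mul_left _))
        (h1.mul_right _)) _
    have h7 := hm.2
    rw [h4] at h7
    push_cast at h7
    exact (Int.dvd_add_left h6).1 h7
  · have hpq : (p : ℤ) ∣ q := by
      rcases hpZ.dvd_or_dvd hq with h1 | h1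
      · exfalso
        have h2 : p ∣ 2 := by exact_mod_cast h1
        exact hp2 ((Nat.prime_dvd_prime_iff_eq hp Nat.prime_two).1 h2)
      · exact h1
    by_cases hpr : (p : ℤ) ∣ r
    · exfalso
      apply hc.1 p hp hpq hpr
      have h4 : Vg q r τ c h m = c + τ * (q * ((m : ℤ) ^ 2 - h ^ 2) + r * ((m : ℤ) - h)) := by
        unfold Vg
        ring
      have h6 : (p : ℤ) ∣ τ * (q * ((m : ℤ) ^ 2 - h ^ 2) + r * ((m : ℤ) - h)) :=
        Dvd.dvd.mul_left (dvd_add (hpq.mul_right _) (hpr.mul_right _)) _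
      have h7 := hm.2
      rw [h4] at h7
      exact (Int.dvd_add_left h6).1 h7
    · rcases hpZ.dvd_or_dvd key with h2 | h2
      · exact heq h2
      · exfalso
        apply hpr
        exact (Int.dvd_add_right (hpq.mul_right _)).1 h2

/-! ### The local factors -/

/-- `(1 - wg / p) / (1 - 1 / p) = 1 + xg` -/
noncomputable def xg (τ c : ℤ) (p h : ℕ) : ℝ := (1 - (wg q r τ c h p : ℝ)) / ((p : ℝ) - 1)

lemma fac_eq' (τ c : ℤ) {p : ℕ} (hp : p.Prime) (h : ℕ) :
    (1 - (wg q r τ c h p : ℝ) / p) / (1 - 1 / (p : ℝ)) = 1 + xg q r τ c p h := by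
  have h1 : (2 : ℝ) ≤ p := by exact_mod_cast hp.two_le
  have h2 : (p : ℝ) - 1 ≠ 0 := by linarith
  have h3 : (p : ℝ) ≠ 0 := by linarith
  have h4 : (1 - 1 / (p : ℝ)) ≠ 0 := by
    rw [sub_ne_zero]
    intro h
    rw [eq_div_iff h3] at h
    linarith
  unfold xg
  rw [div_eq_iff h4]
  field_simp
  ring

lemma xg_mod (τ c : ℤ) (p h : ℕ) : xg q r τ c p (h % p) = xg q r τ c p h := by
  unfold xg
  rcases Nat.eq_zero_or_pos p with rfl | hp
  · rw [Nat.mod_zero]
  · have : NeZero p := ⟨hp.ne'⟩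
    rw [wg_mod]

lemma xg_rng (τ c : ℤ) {p : ℕ} (hp : p.Prime) (h : ℕ) :
    0 ≤ 1 + xg q r τ c p h ∧ 1 + xg q r τ c p h ≤ 2 := by
  have h1 : (2 : ℝ) ≤ p := by exact_mod_cast hp.two_le
  have h3 : (0 : ℝ) < (p : ℝ) - 1 := by linarith
  have h4 : (0 : ℝ) ≤ (wg q r τ c h p : ℝ) := by positivity
  have h5 : (wg q r τ c h p : ℝ) ≤ p := by exact_mod_cast wg_le_p q r τ c h p
  have e : 1 + xg q r τ c p h = ((p : ℝ) - wg q r τ c h p) / (p - 1) := by
    unfold xg
    field_simp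
    ring
  rw [e]
  constructor
  · exact div_nonneg (by linarith) h3.le
  · rw [div_le_iff₀ h3]
    linarith

lemma xg_bad {τ : ℤ} (hτ : τ = 1 ∨ τ = -1) {c : ℤ} (hc : Adg q r c) (h : ℕ) {p : ℕ} (hp : p.Prime)
    (hq : (p : ℤ) ∣ 2 * q) : 0 ≤ xg q r τ c p h := by
  have h1 : (2 : ℝ) ≤ p := by exact_mod_cast hp.two_le
  have h2 : (wg q r τ c h p : ℝ) ≤ 1 := by exact_mod_cast wg_bad q r hτ hc h hp hq
  unfold xg
  exact div_nonneg (by linarith) (by linarith)

lemma good_ge {q : ℤ} {p : ℕ} (hp : p.Prime) (hq : ¬ (p : ℤ) ∣ 2 * q) : 3 ≤ p := by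
  have h1 := hp.two_le
  by_contra hcon
  have h2 : p = 2 := by omega
  apply hq
  rw [h2]
  exact ⟨q, by push_cast; ring⟩

lemma xg_abs {τ : ℤ} (hτ : τ = 1 ∨ τ = -1) (c : ℤ) {p : ℕ} (hp : p.Prime)
    (hq : ¬ (p : ℤ) ∣ 2 * q) (h : ℕ) : |xg q r τ c p h| ≤ 1 / ((p : ℝ) - 1) := by
  have h1 : (2 : ℝ) ≤ p := by exact_mod_cast hp.two_le
  have h3 : (0 : ℝ) < (p : ℝ) - 1 := by linarith
  have h2 : (wg q r τ c h p : ℝ) ≤ 2 := by exact_mod_cast wg_le q r hτ c h hp hq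
  have h4 : (0 : ℝ) ≤ (wg q r τ c h p : ℝ) := by positivity
  unfold xg
  rw [abs_div, abs_of_pos h3]
  refine div_le_div_of_nonneg_right ?_ h3.le
  rw [abs_le]
  constructor <;> linarith

lemma xg_half {τ : ℤ} (hτ : τ = 1 ∨ τ = -1) (c : ℤ) {p : ℕ} (hp : p.Prime)
    (hq : ¬ (p : ℤ) ∣ 2 * q) (h : ℕ) : |xg q r τ c p h| ≤ 1 / 2 := by
  have h2 : (3 : ℝ) ≤ p := by exact_mod_cast good_ge hp hq
  refine (xg_abs q r hτ c hp hq h).trans ?_
  rw [div_le_div_iff₀ (by linarith) (by norm_num)]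
  linarith

lemma sum_xg {τ : ℤ} (hτ : τ = 1 ∨ τ = -1) (c : ℤ) {p : ℕ} (hp : p.Prime)
    (hq : ¬ (p : ℤ) ∣ 2 * q) :
    ∑ h ∈ range p, xg q r τ c p h = (1 - if (p : ℤ) ∣ c then (p : ℝ) else 0) / ((p : ℝ) - 1) := by
  unfold xg
  rw [← Finset.sum_div, Finset.sum_sub_distrib]
  congr 1
  have h := sum_wg q r hτ c hp hq
  have h1 : ((∑ h ∈ range p, wg q r τ c h p : ℕ) : ℝ) =
      ((p - 1 + if (p : ℤ) ∣ c then p else 0 : ℕ) : ℝ) := by rw [h]
  push_cast [Nat.cast_sub hp.one_le] at h1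
  rw [h1]
  simp
  ring

lemma avg_xg {τ : ℤ} (hτ : τ = 1 ∨ τ = -1) (c : ℤ) {p : ℕ} (hp : p.Prime)
    (hq : ¬ (p : ℤ) ∣ 2 * q) : |∑ h ∈ range p, xg q r τ c p h| ≤ p * wt c p := by
  have h1 : (2 : ℝ) ≤ p := by exact_mod_cast hp.two_le
  have h3 : (0 : ℝ) < (p : ℝ) - 1 := by linarith
  rw [sum_xg q r hτ c hp hq]
  unfold wt
  split_ifs with hc
  · rw [abs_div, abs_of_pos h3, abs_of_nonpos (by linarith)]
    have e : (p : ℝ) * (1 / ((p : ℝ) * (p - 1)) + 1 / (p : ℝ)) = 1 / ((p : ℝ) - 1) + 1 := by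
      field_simp
    rw [e]
    have e2 : -(1 - (p : ℝ)) / ((p : ℝ) - 1) = 1 := by
      rw [div_eq_one_iff_eq h3.ne']
      ring
    rw [e2]
    have : 0 ≤ 1 / ((p : ℝ) - 1) := by positivity
    linarith
  · rw [sub_zero, add_zero, abs_of_nonneg (by positivity)]
    apply le_of_eq
    field_simp

lemma sum_one_xg {τ : ℤ} (hτ : τ = 1 ∨ τ = -1) (c : ℤ) {p : ℕ} (hp : p.Prime)
    (hq : ¬ (p : ℤ) ∣ 2 * q) :
    ∑ h ∈ range p, (1 + xg q r τ c p h) ≤ p * (1 + 1 / ((p : ℝ) * (p - 1))) := by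
  have h1 : (2 : ℝ) ≤ p := by exact_mod_cast hp.two_le
  have h3 : (0 : ℝ) < (p : ℝ) - 1 := by linarith
  rw [Finset.sum_add_distrib]
  simp only [sum_const, card_range, nsmul_eq_mul, mul_one]
  have h5 : (p : ℝ) * (1 + 1 / ((p : ℝ) * (p - 1))) = p + 1 / ((p : ℝ) - 1) := by
    field_simp
  rw [h5]
  have h6 : ∑ h ∈ range p, xg q r τ c p h ≤ 1 / ((p : ℝ) - 1) := by
    rw [sum_xg q r hτ c hp hq]
    refine div_le_div_of_nonneg_right ?_ h3.le
    split_ifs <;> linarith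
  linarith

/-- the primes up to `z` which do not divide `2 q` -/
def GP (z : ℕ) : Finset ℕ := ((Ioc 0 z).filter Nat.Prime).filter (fun p : ℕ => ¬ (p : ℤ) ∣ 2 * q)

/-- the primes up to `z` which divide `2 q` -/
def BP (z : ℕ) : Finset ℕ := ((Ioc 0 z).filter Nat.Prime).filter (fun p : ℕ => (p : ℤ) ∣ 2 * q)

lemma GP_spec {z p : ℕ} (hp : p ∈ GP q z) : p.Prime ∧ ¬ (p : ℤ) ∣ 2 * q ∧ p ≤ z := by
  unfold GP at hp
  rw [mem_filter, mem_filter, mem_Ioc] at hp
  exact ⟨hp.1.2, hp.2, hp.1.1.2⟩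

lemma BP_spec {z p : ℕ} (hp : p ∈ BP q z) : p.Prime ∧ (p : ℤ) ∣ 2 * q := by
  unfold BP at hp
  rw [mem_filter, mem_filter, mem_Ioc] at hp
  exact ⟨hp.1.2, hp.2⟩

lemma Sqg_eq (τ c : ℤ) (z h : ℕ) :
    Sqg q r τ c h z = ∏ p ∈ (Ioc 0 z).filter Nat.Prime, (1 + xg q r τ c p h) := by
  unfold Sqg
  refine Finset.prod_congr rfl fun p hp => ?_
  exact fac_eq' q r τ c (Finset.mem_filter.1 hp).2 h

lemma Sqg_gb (τ c : ℤ) (z h : ℕ) : Sqg q r τ c h z =
    (∏ p ∈ BP q z, (1 + xg q r τ c p h)) * ∏ p ∈ GP q z, (1 + xg q r τ c p h) := by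
  rw [Sqg_eq]
  unfold BP GP
  exact (Finset.prod_filter_mul_prod_filter_not _ _ _).symm

lemma Sqg_nonneg (τ c : ℤ) (z h : ℕ) : 0 ≤ Sqg q r τ c h z := by
  rw [Sqg_eq]
  exact Finset.prod_nonneg fun p hp => (xg_rng q r τ c (Finset.mem_filter.1 hp).2 h).1

lemma G_nonneg (τ c : ℤ) (z h : ℕ) : 0 ≤ ∏ p ∈ GP q z, (1 + xg q r τ c p h) :=
  Finset.prod_nonneg fun p hp => (xg_rng q r τ c (GP_spec q hp).1 h).1

lemma B_le (hq : 1 ≤ q) (τ c : ℤ) (z h : ℕ) :
    ∏ p ∈ BP q z, (1 + xg q r τ c p h) ≤ 2 ^ (2 * q).natAbs := by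
  have h1 : ∏ p ∈ BP q z, (1 + xg q r τ c p h) ≤ ∏ _p ∈ BP q z, (2 : ℝ) :=
    Finset.prod_le_prod (fun p hp => (xg_rng q r τ c (BP_spec q hp).1 h).1)
      fun p hp => (xg_rng q r τ c (BP_spec q hp).1 h).2
  rw [Finset.prod_const] at h1
  refine h1.trans (pow_le_pow_right₀ (by norm_num) ?_)
  have h2 : BP q z ⊆ Ioc 0 (2 * q).natAbs := by
    intro p hp
    obtain ⟨h3, h4⟩ := BP_spec q hp
    rw [mem_Ioc]
    refine ⟨h3.pos, ?_⟩
    exact Nat.le_of_dvd (by omega) (Int.natCast_dvd.1 h4)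
  have h3 := Finset.card_le_card h2
  rwa [Nat.card_Ioc, Nat.sub_zero] at h3

lemma B_ge {τ : ℤ} (hτ : τ = 1 ∨ τ = -1) {c : ℤ} (hc : Adg q r c) (z h : ℕ) :
    1 ≤ ∏ p ∈ BP q z, (1 + xg q r τ c p h) := by
  have h1 : ∏ _p ∈ BP q z, (1 : ℝ) ≤ ∏ p ∈ BP q z, (1 + xg q r τ c p h) := by
    refine Finset.prod_le_prod (fun _ _ => zero_le_one) fun p hp => ?_
    have := xg_bad q r hτ hc h (BP_spec q hp).1 (BP_spec q hp).2
    linarith
  rwa [Finset.prod_const_one] at h1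

lemma Sqg_le (hq : 1 ≤ q) (τ c : ℤ) (z h : ℕ) : Sqg q r τ c h z ≤
    2 ^ (2 * q).natAbs * ∏ p ∈ GP q z, (1 + xg q r τ c p h) := by
  rw [Sqg_gb]
  exact mul_le_mul_of_nonneg_right (B_le q r hq τ c z h) (G_nonneg q r τ c z h)

lemma tel_GP (z : ℕ) : ∑ p ∈ GP q z, 1 / ((p : ℝ) * (p - 1)) ≤ 1 := by
  have h3 := tel_prime 1 le_rfl z
  have h4 : GP q z ⊆ (Ioc 1 z).filter Nat.Prime := by
    intro p hp
    obtain ⟨h5, _, h6⟩ := GP_spec q hp
    rw [mem_filter, mem_Ioc]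
    exact ⟨⟨h5.one_lt, h6⟩, h5⟩
  refine (Finset.sum_le_sum_of_subset_of_nonneg h4 fun p hp _ => ?_).trans (by simpa using h3)
  have h5 : (2 : ℝ) ≤ p := by exact_mod_cast (mem_filter.1 hp).2.two_le
  have h6 : (0 : ℝ) ≤ (p : ℝ) - 1 := by linarith
  positivity

/-! ### AVSg -/

theorem avsg0 (z : ℕ) : ∃ H0 : ℕ, ∀ H : ℕ, H0 ≤ H → ∀ c τ : ℤ, (τ = 1 ∨ τ = -1) →
    ∑ h ∈ Icc 1 H, ∏ p ∈ GP q z, (1 + xg q r τ c p h) ≤ 3 * Real.exp 1 * H := by
  obtain ⟨s, hs⟩ : ∃ s, s = GP q z := ⟨_, rfl⟩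
  rw [← hs]
  obtain ⟨Q, hQ⟩ : ∃ Q, Q = ∏ p ∈ s, p := ⟨_, rfl⟩
  have hsp : ∀ p ∈ s, p.Prime := fun p hp => (GP_spec q (hs ▸ hp)).1
  have hsq : ∀ p ∈ s, ¬ (p : ℤ) ∣ 2 * q := fun p hp => (GP_spec q (hs ▸ hp)).2.1
  have hQ1 : 1 ≤ Q := by
    rw [hQ]
    exact Finset.prod_pos fun p hp => (hsp p hp).pos
  refine ⟨Q, fun B hB c τ hτ => ?_⟩
  have hS : ∑ b ∈ range Q, ∏ p ∈ s, (1 + xg q r τ c p b) ≤ Q * Real.exp 1 := by
    have h1 : ∑ b ∈ range Q, ∏ p ∈ s, (1 + xg q r τ c p b) =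
        ∏ p ∈ s, ∑ b ∈ range p, (1 + xg q r τ c p b) := by
      rw [hQ, ← avg (fun p b => 1 + xg q r τ c p b) (fun p b => by rw [xg_mod]) s hsp]
    rw [h1]
    calc ∏ p ∈ s, ∑ b ∈ range p, (1 + xg q r τ c p b)
        ≤ ∏ p ∈ s, ((p : ℝ) * (1 + 1 / ((p : ℝ) * (p - 1)))) :=
          Finset.prod_le_prod (fun p hp => Finset.sum_nonneg fun b _ =>
            (xg_rng q r τ c (hsp p hp) b).1) fun p hp => sum_one_xg q r hτ c (hsp p hp) (hsq p hp)
      _ = Q * ∏ p ∈ s, (1 + 1 / ((p : ℝ) * (p - 1))) := by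
          rw [Finset.prod_mul_distrib, hQ]
          push_cast
          rfl
      _ ≤ Q * Real.exp 1 := by
          refine mul_le_mul_of_nonneg_left ?_ (by positivity)
          calc ∏ p ∈ s, (1 + 1 / ((p : ℝ) * (p - 1)))
              ≤ ∏ p ∈ s, Real.exp (1 / ((p : ℝ) * (p - 1))) := by
                refine Finset.prod_le_prod (fun p hp => ?_) fun p hp => ?_
                · have : (2 : ℝ) ≤ p := by exact_mod_cast (hsp p hp).two_le
                  have h2 : (0 : ℝ) ≤ (p : ℝ) - 1 := by linarith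
                  positivity
                · rw [add_comm]
                  exact Real.add_one_le_exp _
            _ = Real.exp (∑ p ∈ s, 1 / ((p : ℝ) * (p - 1))) := (Real.exp_sum _ _).symm
            _ ≤ Real.exp 1 := by
                refine Real.exp_le_exp.2 ?_
                rw [hs]
                exact tel_GP q z
  have hB1 : 1 ≤ B := hQ1.trans hB
  have hper : ∀ b : ℕ, ∏ p ∈ s, (1 + xg q r τ c p (b % Q)) = ∏ p ∈ s, (1 + xg q r τ c p b) := by
    intro b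
    refine Finset.prod_congr rfl fun p hp => ?_
    rw [← xg_mod q r τ c p (b % Q), Nat.mod_mod_of_dvd _
      (hQ ▸ Finset.dvd_prod_of_mem (fun p => p) hp), xg_mod]
  obtain ⟨k, hk⟩ : ∃ k, k = (B + 1) / Q + 1 := ⟨_, rfl⟩
  have hle : B + 1 ≤ k * Q := by
    have := Nat.lt_div_mul_add (a := B + 1) (b := Q) (by omega)
    rw [hk, Nat.succ_mul]
    omega
  have hkQ : (k * Q : ℝ) ≤ 3 * B := by
    have h1 : (B + 1) / Q * Q ≤ B + 1 := Nat.div_mul_le_self _ _
    have h2 : k * Q ≤ 3 * B := by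
      rw [hk, Nat.succ_mul]
      omega
    exact_mod_cast h2
  have hnn : ∀ b : ℕ, 0 ≤ ∏ p ∈ s, (1 + xg q r τ c p b) := fun b =>
    Finset.prod_nonneg fun p hp => (xg_rng q r τ c (hsp p hp) b).1
  calc ∑ b ∈ Icc 1 B, ∏ p ∈ s, (1 + xg q r τ c p b)
      ≤ ∑ b ∈ range (k * Q), ∏ p ∈ s, (1 + xg q r τ c p b) := by
        refine Finset.sum_le_sum_of_subset_of_nonneg ?_ fun b _ _ => hnn b
        intro b hb
        rw [mem_Icc] at hb
        rw [mem_range]
        omega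
    _ = k * ∑ b ∈ range Q, ∏ p ∈ s, (1 + xg q r τ c p b) :=
        periods (fun b => ∏ p ∈ s, (1 + xg q r τ c p b)) Q hper k
    _ ≤ k * (Q * Real.exp 1) := mul_le_mul_of_nonneg_left hS (by positivity)
    _ = (k * Q) * Real.exp 1 := by ring
    _ ≤ (3 * B) * Real.exp 1 := mul_le_mul_of_nonneg_right hkQ (Real.exp_pos _).le
    _ = 3 * Real.exp 1 * B := by ring

/-- the constant -/
noncomputable def CA (q : ℤ) : ℝ := 2 ^ (2 * q).natAbs * (3 * Real.exp 1)

lemma CA_pos (q : ℤ) : 0 < CA q := by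
  unfold CA
  positivity

theorem avsg (hq : 1 ≤ q) (z : ℕ) : ∃ H0 : ℕ, ∀ H : ℕ, H0 ≤ H → ∀ c τ : ℤ, (τ = 1 ∨ τ = -1) →
    ∑ h ∈ Icc 1 H, Sqg q r τ c h z ≤ CA q * H := by
  obtain ⟨H0, hH0⟩ := avsg0 q r z
  refine ⟨H0, fun H hH c τ hτ => ?_⟩
  have h1 := hH0 H hH c τ hτ
  calc ∑ h ∈ Icc 1 H, Sqg q r τ c h z
      ≤ ∑ h ∈ Icc 1 H, 2 ^ (2 * q).natAbs * ∏ p ∈ GP q z, (1 + xg q r τ c p h) :=
        Finset.sum_le_sum fun h _ => Sqg_le q r hq τ c z h
    _ = 2 ^ (2 * q).natAbs * ∑ h ∈ Icc 1 H, ∏ p ∈ GP q z, (1 + xg q r τ c p h) := by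
        rw [Finset.mul_sum]
    _ ≤ 2 ^ (2 * q).natAbs * (3 * Real.exp 1 * H) := mul_le_mul_of_nonneg_left h1 (by positivity)
    _ = CA q * H := by
        unfold CA
        ring

/-- **AVSg** -/
theorem t_AVSg (a b : ℤ) (ha : 1 ≤ a) : S_AVSg a b := by
  refine ⟨CA a, CA_pos a, fun z => ?_⟩
  obtain ⟨H0, hH0⟩ := avsg a b ha z
  exact ⟨H0, fun H hH c τ _ hτ => hH0 H hH c τ hτ⟩

lemma Sqg_split (τ c : ℤ) {z Z : ℕ} (h : z ≤ Z) (b : ℕ) :
    Sqg q r τ c b Z = Sqg q r τ c b z * ∏ p ∈ (Ioc z Z).filter Nat.Prime, (1 + xg q r τ c p b) := by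
  rw [Sqg_eq, Sqg_eq, ← Finset.prod_union]
  · refine Finset.prod_congr ?_ fun _ _ => rfl
    rw [← Finset.filter_union, Finset.Ioc_union_Ioc_eq_Ioc (by omega) h]
  · refine Finset.disjoint_filter_filter ?_
    rw [Finset.disjoint_left]
    intro a ha hb
    rw [mem_Ioc] at ha hb
    omega

/-! ### TLSg -/

/-- **TLSg** -/
theorem t_TLSg (s0 : ℕ) (q r : ℤ) (hq : 1 ≤ q) : S_TLSg s0 q r := by
  classical
  intro ε hε
  set C : ℝ := CA q with hC
  have hC0 : 0 < C := CA_pos q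
  set K0 : ℝ := 2 * C / ε with hK0
  have hK0p : 0 < K0 := by positivity
  set δ : ℝ := min (1 / 4) (ε / (4 * K0)) with hδ
  have hδ0 : 0 < δ := lt_min (by norm_num) (by positivity)
  have hδ1 : δ ≤ 1 / 4 := min_le_left _ _
  have hδ2 : 4 * K0 * δ ≤ ε := by
    have : δ ≤ ε / (4 * K0) := min_le_right _ _
    rw [le_div_iff₀ (by positivity)] at this
    linarith
  refine ⟨(2 * q).natAbs + s0 + 2 + ⌈4 / δ⌉₊ + ⌈40 / (ε * δ ^ 2)⌉₊, fun z hz A => ?_⟩
  have hz2 : 2 ≤ z := by omega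
  have hzs : s0 ≤ z := by omega
  have hzr : (2 : ℝ) ≤ z := by exact_mod_cast hz2
  have hzE2 : 4 / δ ≤ z := by
    refine (Nat.le_ceil _).trans ?_
    exact_mod_cast (by omega : ⌈4 / δ⌉₊ ≤ z)
  have hzE3 : 40 / (ε * δ ^ 2) ≤ z := by
    refine (Nat.le_ceil _).trans ?_
    exact_mod_cast (by omega : ⌈40 / (ε * δ ^ 2)⌉₊ ≤ z)
  have hzq : (2 * q).natAbs ≤ z := by omega
  obtain ⟨B1, hB1⟩ := avsg q r hq z
  -- powers of the logarithm
  have hlog : ∃ B2 : ℕ, ∀ B : ℕ, B2 ≤ B → Real.log B ^ (2 * A) ≤ ε * δ ^ 2 / 20 * B := by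
    have h1 := (Real.isLittleO_pow_log_id_atTop (n := 2 * A)).bound
      (show 0 < ε * δ ^ 2 / 20 by positivity)
    have h2 := (tendsto_natCast_atTop_atTop (R := ℝ)).eventually h1
    obtain ⟨B2, hB2⟩ := Filter.eventually_atTop.1 h2
    refine ⟨B2, fun B hB => ?_⟩
    have := hB2 B hB
    simp only [id, Real.norm_eq_abs, Nat.abs_cast] at this
    exact (le_abs_self _).trans this
  obtain ⟨B2, hB2⟩ := hlog
  refine ⟨B1 + B2 + 1, fun B hB Z c τ hc hτ hzZ hZ => ?_⟩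
  have hBr : (1 : ℝ) ≤ B := by exact_mod_cast (by omega : 1 ≤ B)
  set P := (Ioc z Z).filter Nat.Prime with hP
  have hPp : ∀ p ∈ P, p.Prime := fun p hp => (Finset.mem_filter.1 hp).2
  have hPz : ∀ p ∈ P, z < p := fun p hp => (mem_Ioc.1 (Finset.mem_filter.1 hp).1).1
  have hPq : ∀ p ∈ P, ¬ (p : ℤ) ∣ 2 * q := by
    intro p hp h
    have h1 := Nat.le_of_dvd (by omega) (Int.natCast_dvd.1 h)
    have h2 := hPz p hp
    omega
  have hPr : ∀ p ∈ P, (z : ℝ) ≤ (p : ℝ) - 1 := fun p hp => by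
    have h1 : z + 1 ≤ p := hPz p hp
    have h2 : ((z : ℝ) + 1) ≤ p := by exact_mod_cast h1
    linarith
  -- the pointwise estimate
  have hpt : ∀ b : ℕ, Sqg q r τ c b z ≤ K0 → |∑ p ∈ P, xg q r τ c p b| ≤ δ →
      |Sqg q r τ c b Z - Sqg q r τ c b z| ≤ ε := by
    intro b hb1 hb2
    have hx : ∀ p ∈ P, |xg q r τ c p b| ≤ 1 / 2 := fun p hp => xg_half q r hτ c (hPp p hp) (hPq p hp) b
    have hsq : ∑ p ∈ P, xg q r τ c p b ^ 2 ≤ 2 / z := by
      calc ∑ p ∈ P, xg q r τ c p b ^ 2 ≤ ∑ p ∈ P, 2 * (1 / ((p : ℝ) * (p - 1))) := by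
            refine Finset.sum_le_sum fun p hp => ?_
            have h1 := hPr p hp
            have h3 : (0 : ℝ) < (p : ℝ) - 1 := by linarith
            have hp0 : (0 : ℝ) < p := by linarith
            calc xg q r τ c p b ^ 2 = |xg q r τ c p b| ^ 2 := (sq_abs _).symm
              _ ≤ (1 / ((p : ℝ) - 1)) ^ 2 := pow_le_pow_left₀ (abs_nonneg _)
                  (xg_abs q r hτ c (hPp p hp) (hPq p hp) b) 2
              _ = 1 / ((p : ℝ) - 1) ^ 2 := by field_simp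
              _ ≤ 2 * (1 / ((p : ℝ) * (p - 1))) := by
                  rw [mul_one_div, div_le_div_iff₀ (by positivity) (by positivity)]
                  nlinarith
        _ = 2 * ∑ p ∈ P, 1 / ((p : ℝ) * (p - 1)) := by rw [Finset.mul_sum]
        _ ≤ 2 * (1 / z) :=
            mul_le_mul_of_nonneg_left (tel_prime z (by omega) Z) (by positivity)
        _ = _ := by ring
    have hzδ : 4 / (z : ℝ) ≤ δ := by
      rw [div_le_iff₀ hδ0] at hzE2
      rw [div_le_iff₀ (by linarith)]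
      linarith
    have h4 : 2 * (2 / (z : ℝ)) = 4 / z := by ring
    have hR := ratio P (fun p => xg q r τ c p b) hx (2 * δ) (by linarith) (by linarith)
    rw [Sqg_split q r τ c hzZ b]
    have h5 : Sqg q r τ c b z * ∏ p ∈ P, (1 + xg q r τ c p b) - Sqg q r τ c b z =
        Sqg q r τ c b z * (∏ p ∈ P, (1 + xg q r τ c p b) - 1) := by ring
    rw [h5, abs_mul, abs_of_nonneg (Sqg_nonneg q r τ c z b)]
    calc Sqg q r τ c b z * |∏ p ∈ P, (1 + xg q r τ c p b) - 1| ≤ K0 * (2 * (2 * δ)) :=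
          mul_le_mul hb1 hR (abs_nonneg _) hK0p.le
      _ = 4 * K0 * δ := by ring
      _ ≤ ε := hδ2
  -- the exceptional sets
  have hsub : (Icc 1 B).filter (fun b : ℕ => ε < |Sqg q r τ c b Z - Sqg q r τ c b z|) ⊆
      (Icc 1 B).filter (fun b : ℕ => K0 < Sqg q r τ c b z) ∪
      (Icc 1 B).filter (fun b : ℕ => δ < |∑ p ∈ P, xg q r τ c p b|) := by
    intro b hb
    rw [mem_filter] at hb
    rw [mem_union, mem_filter, mem_filter]
    by_contra hcon
    push Not at hcon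
    have h1 := hcon.1 hb.1
    have h2 := hcon.2 hb.1
    exact absurd (hpt b h1 h2) (not_le.2 hb.2)
  have hA : (((Icc 1 B).filter (fun b : ℕ => K0 < Sqg q r τ c b z)).card : ℝ) ≤ ε / 2 * B := by
    have h1 : (((Icc 1 B).filter (fun b : ℕ => K0 < Sqg q r τ c b z)).card : ℝ) * K0 ≤ C * B := by
      calc (((Icc 1 B).filter (fun b : ℕ => K0 < Sqg q r τ c b z)).card : ℝ) * K0
          = ∑ b ∈ (Icc 1 B).filter (fun b : ℕ => K0 < Sqg q r τ c b z), K0 := by
            rw [Finset.sum_const, nsmul_eq_mul]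
        _ ≤ ∑ b ∈ (Icc 1 B).filter (fun b : ℕ => K0 < Sqg q r τ c b z), Sqg q r τ c b z :=
            Finset.sum_le_sum fun b hb => (Finset.mem_filter.1 hb).2.le
        _ ≤ ∑ b ∈ Icc 1 B, Sqg q r τ c b z :=
            Finset.sum_le_sum_of_subset_of_nonneg (Finset.filter_subset _ _)
              fun b _ _ => Sqg_nonneg q r τ c z b
        _ ≤ C * B := hB1 B (by omega) c τ hτ
    have h2 : C = K0 * (ε / 2) := by rw [hK0]; field_simp
    rw [h2] at h1
    have h3 : (((Icc 1 B).filter (fun b : ℕ => K0 < Sqg q r τ c b z)).card : ℝ) * K0 ≤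
        (ε / 2 * B) * K0 := by linarith
    exact le_of_mul_le_mul_right h3 hK0p
  have hz0 : (0 : ℝ) < z := by linarith
  have hW : ∑ p ∈ P, wt c p ≤ 1 / z + 1 / √(z : ℝ) := by
    unfold wt
    rw [Finset.sum_add_distrib]
    exact add_le_add (tel_prime z (by omega) Z) ((sum_div c hc.1 z P hPp hPz).trans (hc.2 z hzs))
  have hW0 : 0 ≤ ∑ p ∈ P, wt c p := Finset.sum_nonneg fun p hp => wt_nonneg c (hPp p hp)
  have hW2 : (∑ p ∈ P, wt c p) ^ 2 ≤ 4 / z := by
    have h1 : 1 / (z : ℝ) ≤ 1 / √(z : ℝ) := by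
      apply one_div_le_one_div_of_le (Real.sqrt_pos.2 hz0)
      rw [Real.sqrt_le_left hz0.le]
      nlinarith
    have h2 : ∑ p ∈ P, wt c p ≤ 2 / √(z : ℝ) := by
      have : 2 / √(z : ℝ) = 1 / √(z : ℝ) + 1 / √(z : ℝ) := by ring
      linarith
    calc (∑ p ∈ P, wt c p) ^ 2 ≤ (2 / √(z : ℝ)) ^ 2 := pow_le_pow_left₀ hW0 h2 2
      _ = 4 / z := by
          rw [div_pow, Real.sq_sqrt hz0.le]
          norm_num
  have hBb : (((Icc 1 B).filter (fun b : ℕ => δ < |∑ p ∈ P, xg q r τ c p b|)).card : ℝ) ≤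
      ε / 2 * B := by
    have hcard : (P.card : ℝ) ≤ Z := by
      have : P.card ≤ Z := (Finset.card_filter_le _ _).trans (by simp)
      exact_mod_cast this
    have h1 : (((Icc 1 B).filter (fun b : ℕ => δ < |∑ p ∈ P, xg q r τ c p b|)).card : ℝ) * δ ^ 2 ≤
        ((B : ℝ) + 1) * (4 / z) + 5 * Z ^ 2 + 2 * B * (1 / z) := by
      calc (((Icc 1 B).filter (fun b : ℕ => δ < |∑ p ∈ P, xg q r τ c p b|)).card : ℝ) * δ ^ 2
          = ∑ b ∈ (Icc 1 B).filter (fun b : ℕ => δ < |∑ p ∈ P, xg q r τ c p b|), δ ^ 2 := by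
            rw [Finset.sum_const, nsmul_eq_mul]
        _ ≤ ∑ b ∈ (Icc 1 B).filter (fun b : ℕ => δ < |∑ p ∈ P, xg q r τ c p b|),
              (∑ p ∈ P, xg q r τ c p b) ^ 2 := by
            refine Finset.sum_le_sum fun b hb => ?_
            rw [← sq_abs (∑ p ∈ P, xg q r τ c p b)]
            exact pow_le_pow_left₀ hδ0.le (Finset.mem_filter.1 hb).2.le 2
        _ ≤ ∑ b ∈ Icc 1 B, (∑ p ∈ P, xg q r τ c p b) ^ 2 :=
            Finset.sum_le_sum_of_subset_of_nonneg (Finset.filter_subset _ _)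
              fun b _ _ => sq_nonneg _
        _ ≤ ((B : ℝ) + 1) * (∑ p ∈ P, wt c p) ^ 2 + 5 * (P.card : ℝ) ^ 2 +
              2 * B * ∑ p ∈ P, 1 / ((p : ℝ) * (p - 1)) :=
            secondG (fun p b => xg q r τ c p b) (wt c) (fun p b => xg_mod q r τ c p b) P hPp
              (fun p hp => wt_nonneg c (hPp p hp)) (fun p hp b => xg_abs q r hτ c (hPp p hp) (hPq p hp) b)
              (fun p hp => avg_xg q r hτ c (hPp p hp) (hPq p hp)) B
        _ ≤ _ := by
            refine add_le_add (add_le_add ?_ ?_) ?_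
            · exact mul_le_mul_of_nonneg_left hW2 (by positivity)
            · refine mul_le_mul_of_nonneg_left ?_ (by positivity)
              exact pow_le_pow_left₀ (by positivity) hcard 2
            · exact mul_le_mul_of_nonneg_left (tel_prime z (by omega) Z) (by positivity)
    have h2 : ((B : ℝ) + 1) * (4 / z) + 2 * B * (1 / z) ≤ ε / 4 * B * δ ^ 2 := by
      have e : ((B : ℝ) + 1) * (4 / z) + 2 * B * (1 / z) = (6 * B + 4) / z := by
        field_simp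
        ring
      rw [e, div_le_iff₀ hz0]
      have h3 : 40 ≤ z * (ε * δ ^ 2) := by
        rwa [div_le_iff₀ (by positivity)] at hzE3
      have h6 : 40 * B ≤ z * (ε * δ ^ 2) * B :=
        mul_le_mul_of_nonneg_right h3 (by positivity)
      nlinarith
    have h7 : 5 * (Z : ℝ) ^ 2 ≤ ε / 4 * B * δ ^ 2 := by
      have h8 : (Z : ℝ) ^ 2 ≤ Real.log B ^ (2 * A) := by
        rw [mul_comm 2 A, pow_mul]
        exact pow_le_pow_left₀ (by positivity) hZ 2
      have h9 := hB2 B (by omega)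
      have h10 : (Z : ℝ) ^ 2 ≤ ε * δ ^ 2 / 20 * B := h8.trans h9
      calc 5 * (Z : ℝ) ^ 2 ≤ 5 * (ε * δ ^ 2 / 20 * B) :=
            mul_le_mul_of_nonneg_left h10 (by positivity)
        _ = ε / 4 * B * δ ^ 2 := by ring
    have h11 : (((Icc 1 B).filter (fun b : ℕ => δ < |∑ p ∈ P, xg q r τ c p b|)).card : ℝ) * δ ^ 2 ≤
        (ε / 2 * B) * δ ^ 2 := by linarith
    exact le_of_mul_le_mul_right h11 (by positivity)
  calc (((Icc 1 B).filter (fun b : ℕ => ε < |Sqg q r τ c b Z - Sqg q r τ c b z|)).card : ℝ)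
      ≤ (((Icc 1 B).filter (fun b : ℕ => K0 < Sqg q r τ c b z) ∪
          (Icc 1 B).filter (fun b : ℕ => δ < |∑ p ∈ P, xg q r τ c p b|)).card : ℝ) := by
        exact_mod_cast Finset.card_le_card hsub
    _ ≤ (((Icc 1 B).filter (fun b : ℕ => K0 < Sqg q r τ c b z)).card : ℝ) +
          (((Icc 1 B).filter (fun b : ℕ => δ < |∑ p ∈ P, xg q r τ c p b|)).card : ℝ) := by
        exact_mod_cast Finset.card_union_le _ _
    _ ≤ ε * B := by linarith

/-! ### LWBg -/

/-- **LWBg** -/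
theorem t_LWBg (s0 : ℕ) (q r : ℤ) (_hq : 1 ≤ q) : S_LWBg s0 q r := by
  classical
  intro ε hε
  set C : ℝ := 2 * ((s0 : ℝ) + 3) ^ 2 + 3 with hC
  have hC0 : 0 < C := by positivity
  set l : ℝ := C / ε + 1 with hl
  have hl1 : 1 ≤ l := by
    have : 0 ≤ C / ε := by positivity
    linarith
  refine ⟨Real.exp (-l - 4), Real.exp_pos _, fun z => ⟨5 * z ^ 2 + 1, fun H hH c τ hc hA hτ => ?_⟩⟩
  have hHr : (1 : ℝ) ≤ H := by exact_mod_cast (by omega : 1 ≤ H)
  have hHz : 5 * (z : ℝ) ^ 2 ≤ H := by exact_mod_cast (by omega : 5 * z ^ 2 ≤ H)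
  obtain ⟨P, hP⟩ : ∃ P, P = GP q z := ⟨_, rfl⟩
  have hPp : ∀ p ∈ P, p.Prime := fun p hp => (GP_spec q (hP ▸ hp)).1
  have hPq : ∀ p ∈ P, ¬ (p : ℤ) ∣ 2 * q := fun p hp => (GP_spec q (hP ▸ hp)).2.1
  have htel : ∑ p ∈ P, 1 / ((p : ℝ) * (p - 1)) ≤ 1 := by
    rw [hP]
    exact tel_GP q z
  -- the lower bound
  have hlow : ∀ b : ℕ, Real.exp (∑ p ∈ P, xg q r τ c p b - 4) ≤ Sqg q r τ c b z := by
    intro b
    have hsq : ∑ p ∈ P, xg q r τ c p b ^ 2 ≤ 2 := by
      calc ∑ p ∈ P, xg q r τ c p b ^ 2 ≤ ∑ p ∈ P, 2 * (1 / ((p : ℝ) * (p - 1))) := by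
            refine Finset.sum_le_sum fun p hp => ?_
            have h1 : (2 : ℝ) ≤ p := by exact_mod_cast (hPp p hp).two_le
            have h3 : (0 : ℝ) < (p : ℝ) - 1 := by linarith
            calc xg q r τ c p b ^ 2 = |xg q r τ c p b| ^ 2 := (sq_abs _).symm
              _ ≤ (1 / ((p : ℝ) - 1)) ^ 2 := pow_le_pow_left₀ (abs_nonneg _)
                  (xg_abs q r hτ c (hPp p hp) (hPq p hp) b) 2
              _ = 1 / ((p : ℝ) - 1) ^ 2 := by field_simp
              _ ≤ 2 * (1 / ((p : ℝ) * (p - 1))) := by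
                  rw [mul_one_div, div_le_div_iff₀ (by positivity) (by positivity)]
                  nlinarith
        _ = 2 * ∑ p ∈ P, 1 / ((p : ℝ) * (p - 1)) := by rw [Finset.mul_sum]
        _ ≤ 2 * 1 := mul_le_mul_of_nonneg_left htel (by positivity)
        _ = 2 := by norm_num
    calc Real.exp (∑ p ∈ P, xg q r τ c p b - 4) ≤
        Real.exp (∑ p ∈ P, (xg q r τ c p b - 2 * xg q r τ c p b ^ 2)) := by
          refine Real.exp_le_exp.2 ?_
          rw [Finset.sum_sub_distrib, ← Finset.mul_sum]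
          linarith
      _ = ∏ p ∈ P, Real.exp (xg q r τ c p b - 2 * xg q r τ c p b ^ 2) := Real.exp_sum _ _
      _ ≤ ∏ p ∈ P, (1 + xg q r τ c p b) :=
          Finset.prod_le_prod (fun p _ => (Real.exp_pos _).le)
            fun p hp => low _ (xg_half q r hτ c (hPp p hp) (hPq p hp) b)
      _ ≤ Sqg q r τ c b z := by
          rw [Sqg_gb, ← hP]
          refine le_mul_of_one_le_left ?_ (B_ge q r hτ hA z b)
          exact Finset.prod_nonneg fun p hp => (xg_rng q r τ c (hPp p hp) b).1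
  have hsub : (Icc 1 H).filter (fun h : ℕ => Sqg q r τ c h z < Real.exp (-l - 4)) ⊆
      (Icc 1 H).filter (fun h : ℕ => l < |∑ p ∈ P, xg q r τ c p h|) := by
    intro b hb
    rw [mem_filter] at hb ⊢
    refine ⟨hb.1, ?_⟩
    have h1 := (hlow b).trans_lt hb.2
    rw [Real.exp_lt_exp] at h1
    rw [lt_abs]
    right
    linarith
  -- the sum of the weights
  have hW0 : 0 ≤ ∑ p ∈ P, wt c p := Finset.sum_nonneg fun p hp => wt_nonneg c (hPp p hp)
  have hW : ∑ p ∈ P, wt c p ≤ (s0 : ℝ) + 3 := by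
    unfold wt
    rw [Finset.sum_add_distrib]
    have h1 : ∑ p ∈ P, (if (p : ℤ) ∣ c then 1 / (p : ℝ) else 0) ≤ (s0 : ℝ) + 1 + 1 := by
      have h2 : ∑ p ∈ P, (if (p : ℤ) ∣ c then 1 / (p : ℝ) else 0) =
          ∑ p ∈ P.filter (fun p => p ≤ s0 + 1), (if (p : ℤ) ∣ c then 1 / (p : ℝ) else 0) +
          ∑ p ∈ P.filter (fun p => ¬ p ≤ s0 + 1), (if (p : ℤ) ∣ c then 1 / (p : ℝ) else 0) :=
        (Finset.sum_filter_add_sum_filter_not _ _ _).symm
      rw [h2]
      refine add_le_add ?_ ?_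
      · calc ∑ p ∈ P.filter (fun p => p ≤ s0 + 1), (if (p : ℤ) ∣ c then 1 / (p : ℝ) else 0)
            ≤ ∑ _p ∈ P.filter (fun p => p ≤ s0 + 1), (1 : ℝ) := by
              refine Finset.sum_le_sum fun p hp => ?_
              have h3 : (1 : ℝ) ≤ p := by
                exact_mod_cast (hPp p (Finset.mem_filter.1 hp).1).one_le
              split_ifs
              · rw [div_le_one (by linarith)]
                exact h3
              · norm_num
          _ = ((P.filter (fun p => p ≤ s0 + 1)).card : ℝ) := by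
              rw [Finset.sum_const, nsmul_eq_mul, mul_one]
          _ ≤ (s0 : ℝ) + 1 := by
              have h3 : P.filter (fun p => p ≤ s0 + 1) ⊆ Ioc 0 (s0 + 1) := by
                intro p hp
                rw [mem_filter] at hp
                rw [mem_Ioc]
                exact ⟨(hPp p hp.1).pos, hp.2⟩
              have h4 := Finset.card_le_card h3
              rw [Nat.card_Ioc, Nat.sub_zero] at h4
              exact_mod_cast h4
      · have h3 := sum_div c hc.1 (s0 + 1) (P.filter (fun p => ¬ p ≤ s0 + 1))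
          (fun p hp => hPp p (Finset.mem_filter.1 hp).1)
          (fun p hp => not_le.1 (Finset.mem_filter.1 hp).2)
        refine h3.trans ((hc.2 (s0 + 1) (by omega)).trans ?_)
        have h4 : (1 : ℝ) ≤ √((s0 + 1 : ℕ) : ℝ) := by
          rw [Real.one_le_sqrt]
          push_cast
          linarith [(Nat.cast_nonneg s0 : (0 : ℝ) ≤ s0)]
        rw [div_le_one (by linarith)]
        exact h4
    linarith
  have hcard : (P.card : ℝ) ≤ z := by
    have : P.card ≤ z := by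
      rw [hP]
      unfold GP
      refine (Finset.card_filter_le _ _).trans ?_
      exact (Finset.card_filter_le _ _).trans (by simp)
    exact_mod_cast this
  have hm : (((Icc 1 H).filter (fun h : ℕ => l < |∑ p ∈ P, xg q r τ c p h|)).card : ℝ) * l ^ 2 ≤
      C * H := by
    calc (((Icc 1 H).filter (fun b : ℕ => l < |∑ p ∈ P, xg q r τ c p b|)).card : ℝ) * l ^ 2
        = ∑ b ∈ (Icc 1 H).filter (fun b : ℕ => l < |∑ p ∈ P, xg q r τ c p b|), l ^ 2 := by
          rw [Finset.sum_const, nsmul_eq_mul]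
      _ ≤ ∑ b ∈ (Icc 1 H).filter (fun b : ℕ => l < |∑ p ∈ P, xg q r τ c p b|),
            (∑ p ∈ P, xg q r τ c p b) ^ 2 := by
          refine Finset.sum_le_sum fun b hb => ?_
          rw [← sq_abs (∑ p ∈ P, xg q r τ c p b)]
          exact pow_le_pow_left₀ (by linarith) (Finset.mem_filter.1 hb).2.le 2
      _ ≤ ∑ b ∈ Icc 1 H, (∑ p ∈ P, xg q r τ c p b) ^ 2 :=
          Finset.sum_le_sum_of_subset_of_nonneg (Finset.filter_subset _ _)
            fun b _ _ => sq_nonneg _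
      _ ≤ ((H : ℝ) + 1) * (∑ p ∈ P, wt c p) ^ 2 + 5 * (P.card : ℝ) ^ 2 +
            2 * H * ∑ p ∈ P, 1 / ((p : ℝ) * (p - 1)) :=
          secondG (fun p b => xg q r τ c p b) (wt c) (fun p b => xg_mod q r τ c p b) P hPp
            (fun p hp => wt_nonneg c (hPp p hp)) (fun p hp b => xg_abs q r hτ c (hPp p hp) (hPq p hp) b)
            (fun p hp => avg_xg q r hτ c (hPp p hp) (hPq p hp)) H
      _ ≤ (2 * H) * ((s0 : ℝ) + 3) ^ 2 + H + 2 * H * 1 := by
          refine add_le_add (add_le_add ?_ ?_) ?_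
          · exact mul_le_mul (by linarith) (pow_le_pow_left₀ hW0 hW 2) (sq_nonneg _)
              (by positivity)
          · calc 5 * (P.card : ℝ) ^ 2 ≤ 5 * (z : ℝ) ^ 2 :=
                mul_le_mul_of_nonneg_left (pow_le_pow_left₀ (by positivity) hcard 2)
                  (by positivity)
              _ ≤ H := hHz
          · exact mul_le_mul_of_nonneg_left htel (by positivity)
      _ = C * H := by rw [hC]; ring
  have h1 : (((Icc 1 H).filter (fun h : ℕ => Sqg q r τ c h z < Real.exp (-l - 4))).card : ℝ) ≤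
      (((Icc 1 H).filter (fun h : ℕ => l < |∑ p ∈ P, xg q r τ c p h|)).card : ℝ) := by
    exact_mod_cast Finset.card_le_card hsub
  refine h1.trans ?_
  have hl2 : C / ε ≤ l ^ 2 := by nlinarith
  have h2 : C ≤ ε * l ^ 2 := by
    rw [div_le_iff₀ hε] at hl2
    linarith
  have h3 : (((Icc 1 H).filter (fun h : ℕ => l < |∑ p ∈ P, xg q r τ c p h|)).card : ℝ) * l ^ 2 ≤
      (ε * H) * l ^ 2 := by
    calc _ ≤ C * H := hm
      _ ≤ (ε * l ^ 2) * H := mul_le_mul_of_nonneg_right h2 (by positivity)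
      _ = _ := by ring
  exact le_of_mul_le_mul_right h3 (by positivity)

end Pool.Agent.N814.QV
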